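import Pool.Agent.R570.OFGRev

/-!
# Bounded nonterminals and forbidding rules in degree-(2,1) one-sided forbidding grammars
-/

set_option autoImplicit false

namespace Pool.Agent.Results.MP_fc15dd_lc.BoundedDegree21

open Pool.R570.OFG

/-- Every recursively enumerable language over a finite terminal alphabet is generated by a
generalized one-sided forbidding grammar of degree `(2, 1)` with at most 16 nonterminals in which at
most 14 rules have a nonempty forbidding context. -/
theorem result (t : ℕ) (L : Set (List (Fin t))) (hL : REPred fun w => w ∈ L) :
    ∃ G : Grammar (Fin t), language G = L ∧ HasDegree G 2 1 ∧ numNonterminals G ≤ 16 ∧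
      numForbidding G ≤ 14 :=
  (final t L hL).1

end Pool.Agent.Results.MP_fc15dd_lc.BoundedDegree21
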